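import Mathlib

set_option autoImplicit false

namespace Pool.Agent.Results.MP_25dd1e_co.Double

/-- `a_0, ..., a_n` is acceptable for `b, c` -/
def Acceptable (b c n : ℕ) (a : ℕ → ℤ) : Prop :=
  a 0 = 0 ∧ (∀ i, i < n → a i < a (i + 1)) ∧ ∀ i, i + b ≤ n → a (i + b) ≤ a i + c

/-- `a_0, ..., a_n` hits `k` -/
def Hits (k n : ℕ) (a : ℕ → ℤ) : Prop := ∃ i j, i < j ∧ j ≤ n ∧ a j = a i + k

lemma mono {n : ℕ} {a : ℕ → ℤ} (h : ∀ i, i < n → a i < a (i + 1)) :
    ∀ j i, i < j → j ≤ n → a i < a j := by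
  intro j
  induction j with
  | zero => intro i hi; omega
  | succ j ih =>
    intro i hi hj
    have h1 := h j (by omega)
    rcases Nat.lt_succ_iff_lt_or_eq.1 hi with h2 | h2
    · exact lt_trans (ih i h2 (by omega)) h1
    · rw [h2]; exact h1

lemma gap {n k : ℕ} {a : ℕ → ℤ} (hk : 0 < k) (h : ∀ i, i < n → a i < a (i + 1))
    (hn : ¬ Hits k n a) (i : ℕ) (hi : i + k ≤ n) : a i + 2 * k ≤ a (i + k) := by
  by_contra hc
  push Not at hc
  have hk' : (0 : ℤ) < k := by exact_mod_cast hk
  have key : ∀ x y, x < y → y ≤ k → a (i + x) % k = a (i + y) % k → False := by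
    intro x y hxy hy he
    obtain ⟨q, hq⟩ : (k : ℤ) ∣ a (i + y) - a (i + x) := Int.ModEq.dvd he
    have h1 := mono h (i + y) (i + x) (by omega) (by omega)
    have h2 : a i ≤ a (i + x) := by
      rcases Nat.eq_zero_or_pos x with h0 | h0
      · simp [h0]
      · exact (mono h (i + x) i (by omega) (by omega)).le
    have h3 : a (i + y) ≤ a (i + k) := by
      rcases eq_or_lt_of_le hy with h0 | h0
      · simp [h0]
      · exact (mono h (i + k) (i + y) (by omega) (by omega)).le
    have hq1 : 0 < q := by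
      by_contra h5
      push Not at h5
      nlinarith
    have hq2 : q < 2 := by
      by_contra h5
      push Not at h5
      nlinarith
    have : q = 1 := by omega
    subst this
    exact hn ⟨i + x, i + y, by omega, by omega, by linarith⟩
  obtain ⟨x, hx, y, hy, hxy, he⟩ := Finset.exists_ne_map_eq_of_card_lt_of_maps_to
    (s := Finset.range (k + 1)) (t := Finset.range k) (f := fun j => (a (i + j) % k).toNat)
    (by simp) (by
      intro j _
      have h1 := Int.emod_nonneg (a (i + j)) hk'.ne'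
      have h2 := Int.emod_lt_of_pos (a (i + j)) hk'
      simp only [Finset.coe_range, Set.mem_Iio]
      omega)
  have he' : a (i + x) % k = a (i + y) % k := by
    have h1 := Int.emod_nonneg (a (i + x)) hk'.ne'
    have h2 := Int.emod_nonneg (a (i + y)) hk'.ne'
    omega
  simp only [Finset.mem_range] at hx hy
  rcases lt_or_gt_of_ne hxy with h1 | h1
  · exact key x y h1 (by omega) he'
  · exact key y x h1 (by omega) he'.symm

lemma upper {g b h n : ℕ} (hg : 0 < g) (hb : 0 < b) (hh : 0 < h) (hc : Nat.Coprime b (2 * h))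
    (hn : g * b + g * (2 * h) ≤ n + g) (a : ℕ → ℤ) (ha : Acceptable (g * b) (2 * (g * b)) n a) :
    Hits (g * (2 * h)) n a := by
  by_contra hno
  obtain ⟨h0, hs, hw⟩ := ha
  set M := b + 2 * h with hM
  have hle : ∀ j, j < M → g * j ≤ n := by
    intro j hj
    have : g * (j + 1) ≤ g * M := Nat.mul_le_mul_left g hj
    rw [hM] at this
    nlinarith
  let f : ℕ → ℤ := fun j => a (g * j) - 2 * g * j
  have step : ∀ j, j < M → f ((j + b) % M) ≤ f j := by
    intro j hj
    by_cases h1 : j + b < M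
    · rw [Nat.mod_eq_of_lt h1]
      have h2 := hw (g * j) (by rw [← Nat.mul_add]; exact hle _ h1)
      simp only [f]
      rw [Nat.mul_add]
      push_cast at h2 ⊢
      nlinarith
    · obtain ⟨j0, rfl⟩ : ∃ j0, j = j0 + 2 * h := ⟨j - 2 * h, by omega⟩
      have h2 : (j0 + 2 * h + b) % M = j0 := by
        rw [show j0 + 2 * h + b = j0 + M by omega, Nat.add_mod_right, Nat.mod_eq_of_lt (by omega)]
      rw [h2]
      have h3 := gap (by positivity) hs hno (g * j0) (by rw [← Nat.mul_add]; exact hle _ hj)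
      simp only [f]
      rw [Nat.mul_add]
      push_cast at h3 ⊢
      nlinarith
  have hM0 : 0 < M := by omega
  have iter : ∀ m j, j < M → f ((j + m * b) % M) ≤ f j := by
    intro m j hj
    induction m with
    | zero => simp [Nat.mod_eq_of_lt hj]
    | succ m ih =>
      have h1 := step _ (Nat.mod_lt (j + m * b) hM0)
      rw [Nat.mod_add_mod, show j + m * b + b = j + (m + 1) * b by ring] at h1
      exact h1.trans ih
  have hcM : Nat.Coprime b M := by
    rw [hM, Nat.coprime_self_add_right]; exact hc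
  obtain ⟨w, -, hw1⟩ := Nat.exists_mul_mod_eq_one_of_coprime hcM (by omega)
  have trans : ∀ x y, x < M → y < M → f y ≤ f x := by
    intro x y hx hy
    have h1 := iter (w * (y + M - x)) x hx
    have h2 : (x + w * (y + M - x) * b) % M = y := by
      have h3 : b * w ≡ 1 [MOD M] := by
        unfold Nat.ModEq; rw [hw1, Nat.mod_eq_of_lt (by omega)]
      have h4 : x + (y + M - x) * (b * w) ≡ x + (y + M - x) * 1 [MOD M] :=
        Nat.ModEq.add_left _ (Nat.ModEq.mul_left _ h3)
      rw [show x + (y + M - x) * 1 = y + M by omega] at h4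
      rw [show w * (y + M - x) * b = (y + M - x) * (b * w) by ring, h4, Nat.add_mod_right,
        Nat.mod_eq_of_lt hy]
    rwa [h2] at h1
  have e1 := trans 0 h hM0 (by omega)
  have e2 := trans h 0 (by omega) hM0
  simp only [f] at e1 e2
  refine hno ⟨g * 0, g * h, by simp [hg, hh], hle _ (by omega), ?_⟩
  push_cast at e1 e2 ⊢
  nlinarith

lemma lower {g b h n : ℕ} (hg : 0 < g) (hh : 0 < h) (hc : Nat.Coprime b (2 * h))
    (hn : n + g < g * b + g * (2 * h)) :
    ∃ a : ℕ → ℤ, Acceptable (g * b) (2 * (g * b)) n a ∧ ¬ Hits (g * (2 * h)) n a := by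
  obtain ⟨u, -, hu⟩ := Nat.exists_mul_mod_eq_one_of_coprime hc (by omega)
  have hu1 : b * u ≡ 1 [MOD 2 * h] := by
    unfold Nat.ModEq; rw [hu, Nat.mod_eq_of_lt (by omega)]
  obtain ⟨v, hv⟩ : Odd u := by
    have h1 : b * u ≡ 1 [MOD 2] := hu1.of_mul_right h
    have h2 : Odd (b * u) := Nat.odd_iff.2 h1
    exact (Nat.odd_mul.1 h2).2
  let t : ℕ → ℕ := fun i => (u * (i + 1) + (2 * h - 1)) % (2 * h)
  have ht : ∀ i, t i < 2 * h := fun i => Nat.mod_lt _ (by omega)
  have hA : ∀ i, t (i + b) = (t i + 1) % (2 * h) := by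
    intro i
    simp only [t]
    rw [Nat.mod_add_mod, show u * (i + b + 1) + (2 * h - 1)
      = u * (i + 1) + (2 * h - 1) + b * u by ring]
    exact Nat.ModEq.add_left _ hu1
  have hB : ∀ i, t (i + h) = (t i + h) % (2 * h) := by
    intro i
    simp only [t]
    rw [Nat.mod_add_mod, show u * (i + h + 1) + (2 * h - 1)
      = u * (i + 1) + (2 * h - 1) + h + (2 * h) * v by rw [hv]; ring, Nat.add_mul_mod_self_left]
  have hC : ∀ i, i + 1 < 2 * h → t i + 1 < 2 * h := by
    intro i hi
    by_contra h1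
    have h2 : t i = 2 * h - 1 := by have := ht i; omega
    have h3 : u * (i + 1) + (2 * h - 1) ≡ 0 + (2 * h - 1) [MOD 2 * h] := by
      unfold Nat.ModEq
      rw [zero_add, Nat.mod_eq_of_lt (show 2 * h - 1 < 2 * h by omega)]
      exact h2
    have h4 : u * (i + 1) ≡ 0 [MOD 2 * h] := Nat.ModEq.add_right_cancel' _ h3
    have h5 : b * (u * (i + 1)) ≡ b * 0 [MOD 2 * h] := Nat.ModEq.mul_left _ h4
    have h6 : b * u * (i + 1) ≡ 1 * (i + 1) [MOD 2 * h] := Nat.ModEq.mul_right _ hu1
    rw [← mul_assoc, mul_zero] at h5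
    have h7 := h6.symm.trans h5
    unfold Nat.ModEq at h7
    rw [one_mul, Nat.mod_eq_of_lt hi, Nat.zero_mod] at h7
    omega
  let e : ℕ → ℤ := fun i => if t i < h then 1 else 0
  have he : ∀ i, e i = 0 ∨ e i = 1 := by
    intro i; simp only [e]; split_ifs <;> simp
  have eA : ∀ i, i + 1 < 2 * h → e (i + b) ≤ e i := by
    intro i hi
    have h1 := hA i
    rw [Nat.mod_eq_of_lt (hC i hi)] at h1
    simp only [e]
    split_ifs <;> omega
  have eB : ∀ i, e (i + h) ≠ e i := by
    intro i
    have h1 := hB i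
    have h2 := ht i
    simp only [e]
    by_cases h3 : t i < h
    · rw [Nat.mod_eq_of_lt (by omega)] at h1
      rw [if_pos h3, if_neg (by omega)]; norm_num
    · have h4 : (t i + h) % (2 * h) = t i - h := by
        rw [show t i + h = t i - h + 2 * h by omega, Nat.add_mod_right,
          Nat.mod_eq_of_lt (by omega)]
      rw [if_neg h3, if_pos (by omega)]; norm_num
  have hg' : (0 : ℤ) < g := by exact_mod_cast hg
  refine ⟨fun m => g * (2 * ((m / g : ℕ) : ℤ) + e (m / g)) + ((m % g : ℕ) : ℤ) - g * e 0,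
    ⟨by simp, ?_, ?_⟩, ?_⟩
  · intro m _
    have h1 : m % g < g := Nat.mod_lt _ hg
    have h2 := Nat.div_add_mod m g
    by_cases h3 : m % g + 1 < g
    · have h4 : (m + 1) / g = m / g ∧ (m + 1) % g = m % g + 1 :=
        (Nat.div_mod_unique hg).2 ⟨by omega, h3⟩
      simp only [h4.1, h4.2]
      push_cast
      linarith
    · have h4 : (m + 1) / g = m / g + 1 ∧ (m + 1) % g = 0 :=
        (Nat.div_mod_unique hg).2 ⟨by rw [Nat.mul_add]; omega, hg⟩
      simp only [h4.1, h4.2]
      have h5 : ((m % g : ℕ) : ℤ) < g := by exact_mod_cast h1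
      generalize ((m % g : ℕ) : ℤ) = r at h5 ⊢
      rw [Nat.cast_add, Nat.cast_one, Nat.cast_zero]
      generalize ((m / g : ℕ) : ℤ) = q
      rcases he (m / g) with h6 | h6 <;> rcases he (m / g + 1) with h7 | h7 <;>
        rw [h6, h7] <;> nlinarith
  · intro m hm
    have h1 : (m + g * b) / g = m / g + b := Nat.add_mul_div_left _ _ hg
    have h2 : (m + g * b) % g = m % g := Nat.add_mul_mod_self_left _ _ _
    have h3 : m / g + 1 < 2 * h := by
      have h4 := Nat.mul_div_le m g
      have h5 : g * (m / g + 1) < g * (2 * h) := by rw [Nat.mul_add]; omega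
      exact Nat.lt_of_mul_lt_mul_left h5
    have h4 := eA _ h3
    simp only [h1, h2]
    rw [Nat.cast_add, Nat.cast_mul, Nat.cast_mul, Nat.cast_ofNat]
    generalize ((m / g : ℕ) : ℤ) = q
    nlinarith
  · rintro ⟨i, j, -, -, hij⟩
    simp only at hij
    have h1 : ((i % g : ℕ) : ℤ) < g := by exact_mod_cast Nat.mod_lt _ hg
    have h2 : ((j % g : ℕ) : ℤ) < g := by exact_mod_cast Nat.mod_lt _ hg
    have h3 : (0 : ℤ) ≤ ((i % g : ℕ) : ℤ) := Nat.cast_nonneg _
    have h4 : (0 : ℤ) ≤ ((j % g : ℕ) : ℤ) := Nat.cast_nonneg _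
    rw [Nat.cast_mul, Nat.cast_mul, Nat.cast_ofNat] at hij
    generalize ((i % g : ℕ) : ℤ) = r at *
    generalize ((j % g : ℕ) : ℤ) = s at *
    generalize i / g = I at *
    generalize j / g = J at *
    set D : ℤ := 2 * (J : ℤ) + e J - (2 * (I : ℤ) + e I) - 2 * h with hD
    have h5 : g * D = r - s := by rw [hD]; linarith
    have h6 : D < 1 := by
      by_contra h7
      push Not at h7
      nlinarith
    have h7 : -1 < D := by
      by_contra h7
      push Not at h7
      nlinarith
    have h8 := he I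
    have h9 := he J
    have h10 : J = I + h := by omega
    have h11 := eB I
    rw [← h10] at h11
    omega

theorem result (b k : ℕ) (hb : 0 < b) (hk : 0 < k) (hv : padicValNat 2 b < padicValNat 2 k) :
    IsLeast {n : ℕ | 1 ≤ n ∧ ∀ a : ℕ → ℤ, Acceptable b (2 * b) n a → Hits k n a}
      (b + k - Nat.gcd b k) := by
  obtain ⟨b', k', hc, e1, e2⟩ := Nat.exists_coprime b k
  have hg : 0 < Nat.gcd b k := Nat.gcd_pos_of_pos_left _ hb
  generalize Nat.gcd b k = g at *
  subst e1 e2
  have hb' : 0 < b' := Nat.pos_of_mul_pos_right hb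
  have hk' : 0 < k' := Nat.pos_of_mul_pos_right hk
  rw [padicValNat.mul hb'.ne' hg.ne', padicValNat.mul hk'.ne' hg.ne'] at hv
  obtain ⟨h, rfl⟩ : 2 ∣ k' := dvd_of_one_le_padicValNat (by omega)
  have hh : 0 < h := by omega
  rw [mul_comm b' g, mul_comm (2 * h) g]
  have h1 : g ≤ g * b' := Nat.le_mul_of_pos_right _ hb'
  have h2 : 0 < g * (2 * h) := by positivity
  constructor
  · exact ⟨by omega, fun a ha => upper hg hb' hh hc (by omega) a ha⟩
  · rintro n ⟨-, hn⟩
    by_contra hlt
    obtain ⟨a, ha, hno⟩ := lower (n := n) hg hh hc (by omega)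
    exact hno (hn a ha)

end Pool.Agent.Results.MP_25dd1e_co.Double
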